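import Pool.Agent.COSB.StmtsL

/-!
# Row HPL of squad COSB (MP_0fc649_lc): the isometries form a heap
-/

set_option autoImplicit false

namespace Pool.Agent.COSB.H15

open Pool.Agent.COSB
open Pool.Agent.PAR Pool.Agent.COS Matrix

/-- the action of the product -/
theorem act_mul {n : ℕ} (A B : Matrix.GeneralLinearGroup (Fin n) ℤ)
    (Q : Matrix (Fin n) (Fin n) ℤ) :
    (A * B).1 * Q * (A * B).1ᵀ = A.1 * (B.1 * Q * B.1ᵀ) * A.1ᵀ := by
  have e : (A * B).1 = A.1 * B.1 := rfl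
  rw [e, Matrix.transpose_mul]
  simp only [Matrix.mul_assoc]

/-- the action of the inverse -/
theorem act_inv {n : ℕ} {U : Matrix.GeneralLinearGroup (Fin n) ℤ}
    {Q Q' : Matrix (Fin n) (Fin n) ℤ} (h : U.1 * Q * U.1ᵀ = Q') :
    (U⁻¹).1 * Q' * (U⁻¹).1ᵀ = Q := by
  rw [← h, ← act_mul, inv_mul_cancel]
  have e : (1 : Matrix.GeneralLinearGroup (Fin n) ℤ).1 = 1 := rfl
  rw [e, Matrix.transpose_one, Matrix.one_mul, Matrix.mul_one]

/-- row HPL -/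
theorem hpl (h1 : BdlStmt) : HplStmt := by
  intro n w Q Q' hQ hQ' hb hb'
  have hR : ∀ U : Matrix.GeneralLinearGroup (Fin n) ℤ, U.1 * Q * U.1ᵀ = Q' →
      RgU (wl n w) U := by
    intro U hU i j
    have a1 := abs_lt.1 (h1 n w Q Q' hQ hb hb' U hU i j)
    have a2 := abs_lt.1 (h1 n w Q' Q hQ' hb' hb U⁻¹ (act_inv hU) i j)
    exact ⟨⟨le_of_lt a1.1, a1.2⟩, ⟨le_of_lt a2.1, a2.2⟩⟩
  have hmem : ∀ U : Matrix.GeneralLinearGroup (Fin n) ℤ,
      U ∈ SL w Q Q' ↔ U.1 * Q * U.1ᵀ = Q' := by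
    intro U
    exact ⟨fun h => h.2, fun h => ⟨hR U h, h⟩⟩
  refine ⟨?_, ?_⟩
  · intro a ha b hb2 c hc
    rw [hmem] at ha hb2 hc ⊢
    rw [act_mul, hc, act_mul, act_inv hb2]
    exact ha
  · constructor
    · rintro ⟨U, hU⟩
      exact ⟨U, (hmem U).1 hU⟩
    · rintro ⟨U, hU⟩
      exact ⟨U, (hmem U).2 hU⟩

end Pool.Agent.COSB.H15
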